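import Mathlib
import Pool.Agent.W66.XG
import Pool.Agent.H447R2.ML.Spec

set_option autoImplicit false

/-!
# The Lenstra-Pomerance-Wagstaff law for every pair `(a, b)` and almost every amplitude

For integers `a > 1`, `-a < b < a`, `gcd (a, b) = 1`, a real `β > 0` and a prime `p` let `W a b β p`
be the `p`-rough part (the product, with multiplicity, of the prime factors larger than `p`) of
`⌊β a ^ p - b ^ p / (a - b)⌋`, and let `N a b β n` be the number of primes `p ≤ n` with `W a b β p`
prime.  At the amplitude `β = 1 / (a - b)` the number `W a b β p` is `(a ^ p - b ^ p) / (a - b)`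
itself (for `p` prime to `a - b`), and `N a b β n` is, up to a bounded error, the counting function
of the conjecture.  The pair `(a, b)` is fixed.  We prove that for almost every `β > 0`,
simultaneously for all pairs `(a, b)`, the limit of `N a b β n / log n` exists and equals
`e ^ γ / log a`.
-/

namespace Pool.Agent.Results.MP_de9007_nt.FixedPairLaw

open Filter Topology MeasureTheory

/-- The product, with multiplicity, of the prime factors of `m` that are larger than `p`. -/
def roughPart (p m : ℕ) : ℕ := (m.primeFactorsList.filter (fun r => p < r)).prod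

/-- The `p`-rough part of `⌊β a ^ p - b ^ p / (a - b)⌋`. -/
noncomputable def W (a b : ℤ) (β : ℝ) (p : ℕ) : ℕ :=
  roughPart p ⌊β * (a : ℝ) ^ p - (b : ℝ) ^ p / ((a : ℝ) - b)⌋₊

/-- The number of primes `p ≤ n` for which `W a b β p` is prime. -/
noncomputable def N (a b : ℤ) (β : ℝ) (n : ℕ) : ℕ :=
  ((Finset.range (n + 1)).filter (fun p => p.Prime ∧ (W a b β p).Prime)).card

open Classical in
/-- The number of primes `p ≤ n` for which `(a ^ p - b ^ p) / (a - b)` is prime. -/
noncomputable def count (a b : ℤ) (n : ℕ) : ℕ :=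
  ((Finset.range (n + 1)).filter (fun p => p.Prime ∧ Prime ((a ^ p - b ^ p) / (a - b)))).card

/-- The special amplitude. -/
lemma special {a b : ℤ} (hab : IsCoprime a b) (h1 : -a < b) (h2 : b < a) {p : ℕ} (hp : p.Prime)
    (hpd : ¬ (p : ℤ) ∣ a - b) : (W a b (1 / ((a : ℝ) - b)) p : ℤ) * (a - b) = a ^ p - b ^ p := by
  have h := Pool.Agent.H447R2.ML.rough_quot hab h1 h2 hp hpd rfl
  have hgeom : (∑ i ∈ Finset.range p, a ^ i * b ^ (p - 1 - i)) * (a - b) = a ^ p - b ^ p :=
    (Commute.all a b).geom_sum₂_mul p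
  rw [← h] at hgeom
  exact hgeom

lemma card_le_of_eventually {s t : ℕ → Prop} [DecidablePred s] [DecidablePred t] (D : ℕ)
    (h : ∀ p, D < p → s p → t p) (n : ℕ) :
    (((Finset.range (n + 1)).filter s).card : ℝ) ≤ (((Finset.range (n + 1)).filter t).card : ℝ) +
      (D + 1 : ℕ) := by
  have h1 : (Finset.range (n + 1)).filter s ⊆ (Finset.range (n + 1)).filter t ∪ Finset.range (D + 1) := by
    intro p hp
    rw [Finset.mem_filter] at hp
    rw [Finset.mem_union, Finset.mem_filter]
    by_cases hD : D < p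
    · exact Or.inl ⟨hp.1, h p hD hp.2⟩
    · exact Or.inr (Finset.mem_range.2 (by omega))
  have h2 := (Finset.card_le_card h1).trans (Finset.card_union_le _ _)
  rw [Finset.card_range] at h2
  exact_mod_cast h2

/-- the two counting functions differ by a bounded amount -/
lemma count_close {a b : ℤ} (hab : IsCoprime a b) (h1 : -a < b) (h2 : b < a) :
    ∃ D : ℕ, ∀ n : ℕ, (N a b (1 / ((a : ℝ) - b)) n : ℝ) ≤ count a b n + D ∧
      (count a b n : ℝ) ≤ N a b (1 / ((a : ℝ) - b)) n + D := by
  classical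
  have key : ∀ p : ℕ, (a - b).natAbs < p → p.Prime →
      ((W a b (1 / ((a : ℝ) - b)) p).Prime ↔ Prime ((a ^ p - b ^ p) / (a - b))) := by
    intro p hD hp
    have h3 : ¬ (p : ℤ) ∣ a - b := by
      intro hd
      have h4 := Int.natAbs_dvd_natAbs.2 hd
      rw [Int.natAbs_natCast] at h4
      have h5 := Nat.le_of_dvd (Int.natAbs_pos.2 (by omega)) h4
      omega
    have h4 := special hab h1 h2 hp h3
    rw [← h4, Int.mul_ediv_cancel _ (by omega)]
    exact Nat.prime_iff_prime_int
  refine ⟨(a - b).natAbs + 1, fun n => ⟨?_, ?_⟩⟩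
  · exact card_le_of_eventually (a - b).natAbs (fun p hD hp => ⟨hp.1, (key p hD hp.1).1 hp.2⟩) n
  · exact card_le_of_eventually (a - b).natAbs (fun p hD hp => ⟨hp.1, (key p hD hp.1).2 hp.2⟩) n

lemma law (a b : ℤ) (ha : 1 < a) (h1 : -a < b) (h2 : b < a) : ∀ᵐ β : ℝ, 0 < β →
    Tendsto (fun n : ℕ => (N a b β n : ℝ) / Real.log n) atTop
      (𝓝 (Real.exp Real.eulerMascheroniConstant / Real.log a)) := by
  obtain ⟨A, hA⟩ := Int.eq_ofNat_of_zero_le (show 0 ≤ a by omega)
  have hA2 : 2 ≤ A := by omega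
  have hbr : |(b : ℝ)| < (A : ℝ) := by
    have h3 : |b| < a := abs_lt.2 ⟨h1, h2⟩
    rw [hA] at h3
    exact_mod_cast h3
  have hab : (0 : ℝ) < (A : ℝ) - b := by
    have := le_abs_self (b : ℝ)
    linarith
  have key := Pool.Agent.W66X.law_floor hA2 (κ := |(b : ℝ)|) (C := 1 / ((A : ℝ) - b))
    (g := fun p => -((b : ℝ) ^ p / ((A : ℝ) - b))) (abs_nonneg _) hbr (by
      intro p
      rw [abs_neg, abs_div, abs_pow, abs_of_pos hab]
      exact le_of_eq (by ring))
  filter_upwards [key] with β h hβ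
  have e : (a : ℝ) = (A : ℝ) := by rw [hA]; simp
  rw [e]
  refine (h hβ).congr fun n => ?_
  have hM : Pool.Agent.H447R2.ML.cv (fun p x => x * (A : ℝ) ^ p + -((b : ℝ) ^ p / ((A : ℝ) - b))) β n =
      N a b β n := by
    unfold Pool.Agent.H447R2.ML.cv N W
    rw [e]
    simp only [← sub_eq_add_neg]
    rfl
  rw [hM]

theorem result :
    -- the numbers `(a ^ p - b ^ p) / (a - b)` are the values at `β = 1 / (a - b)`
    (∀ a b : ℤ, IsCoprime a b → -a < b → b < a → ∀ p : ℕ, p.Prime → ¬ (p : ℤ) ∣ a - b →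
      (W a b (1 / ((a : ℝ) - b)) p : ℤ) * (a - b) = a ^ p - b ^ p) ∧
    -- the asymptotic law for the counting function of the pair is the law at this amplitude
    (∀ a b : ℤ, IsCoprime a b → -a < b → b < a → ∀ L : ℝ,
      (Tendsto (fun n : ℕ => (count a b n : ℝ) / Real.log n) atTop (𝓝 L) ↔
        Tendsto (fun n : ℕ => (N a b (1 / ((a : ℝ) - b)) n : ℝ) / Real.log n) atTop (𝓝 L))) ∧
    -- the law for almost every amplitude, simultaneously for all pairs
    (∀ᵐ β : ℝ, 0 < β → ∀ a b : ℤ, 1 < a → -a < b → b < a → IsCoprime a b →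
      Tendsto (fun n : ℕ => (N a b β n : ℝ) / Real.log n) atTop
        (𝓝 (Real.exp Real.eulerMascheroniConstant / Real.log a))) := by
  refine ⟨fun a b hab h1 h2 p hp hpd => special hab h1 h2 hp hpd, fun a b hab h1 h2 L => ?_, ?_⟩
  · obtain ⟨D, hD⟩ := count_close hab h1 h2
    constructor
    · exact fun h => Pool.Agent.W66X.tendsto_transfer (P := (D : ℝ)) (fun n => (hD n).2)
        (fun n => (hD n).1) h
    · exact fun h => Pool.Agent.W66X.tendsto_transfer (P := (D : ℝ)) (fun n => (hD n).1)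
        (fun n => (hD n).2) h
  · have h : ∀ a b : ℤ, ∀ᵐ β : ℝ, 1 < a → -a < b → b < a → 0 < β →
        Tendsto (fun n : ℕ => (N a b β n : ℝ) / Real.log n) atTop
          (𝓝 (Real.exp Real.eulerMascheroniConstant / Real.log a)) := by
      intro a b
      by_cases hc : 1 < a ∧ -a < b ∧ b < a
      · filter_upwards [law a b hc.1 hc.2.1 hc.2.2] with β hβ _ _ _
        exact hβ
      · exact Eventually.of_forall fun β h1 h2 h3 => absurd ⟨h1, h2, h3⟩ hc
    filter_upwards [ae_all_iff.2 fun a => ae_all_iff.2 (h a)] with β hβ h0 a b ha h1 h2 _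
    exact hβ a b ha h1 h2 h0

end Pool.Agent.Results.MP_de9007_nt.FixedPairLaw
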