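import Mathlib
import Pool.Agent.W66.LZ

set_option autoImplicit false

/-!
# The Lenstra-Pomerance-Wagstaff law for every pair `(a, b)` and almost every sequence of last digits

For an integer `a ≥ 2` and a sequence `d 0, d 1, d 2, …` of base `a` digits let `D a d p` be the
integer with the base `a` digits `d (p - 1) … d 1 d 0`, i.e. the residue modulo `a ^ p` of the
`a`-adic integer with the digits `d`, and for an integer `b` let `R a b d p` be the residue of
`D a d p * b ^ p` modulo `a ^ p` in `[0, a ^ p)`.  Let `N a b d n` be the number of primes `p ≤ n` for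
which the `p`-rough part (the product, with multiplicity, of the prime factors larger than `p`) of
`R a b d p` is prime.

If `gcd (a, b) = 1` and `-a < b < a`, there is exactly one sequence `w` that represents the `a`-adic
number `-1 / (a - b)`; for this sequence the `p`-rough part of `R a b w p` is
`(a ^ p - b ^ p) / (a - b)` for all primes `p` prime to `a - b`.  We prove that for almost every
sequence of independent uniform digits with `d 0` prime to `a`, simultaneously for all `b`, the limit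
of `N a b d n / log n` exists and equals `e ^ γ / log a`.
-/

namespace Pool.Agent.Results.MP_de9007_nt.LastDigitsLaw

open Filter Topology MeasureTheory

/-- The product, with multiplicity, of the prime factors of `m` that are larger than `p`. -/
def roughPart (p m : ℕ) : ℕ := (m.primeFactorsList.filter (fun r => p < r)).prod

/-- The integer with base `a` digits `d (p - 1) … d 1 d 0`. -/
def D (a : ℕ) (d : ℕ → Fin a) (p : ℕ) : ℕ := ∑ i ∈ Finset.range p, (d i : ℕ) * a ^ i

/-- The residue of `D a d p * b ^ p` modulo `a ^ p` in `[0, a ^ p)`. -/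
def R (a : ℕ) (b : ℤ) (d : ℕ → Fin a) (p : ℕ) : ℕ := ((D a d p : ℤ) * b ^ p % (a : ℤ) ^ p).toNat

/-- The number of primes `p ≤ n` for which the `p`-rough part of `R a b d p` is prime. -/
def N (a : ℕ) (b : ℤ) (d : ℕ → Fin a) (n : ℕ) : ℕ :=
  ((Finset.range (n + 1)).filter (fun p => p.Prime ∧ (roughPart p (R a b d p)).Prime)).card

open Classical in
/-- The number of primes `p ≤ n` for which `(a ^ p - b ^ p) / (a - b)` is prime. -/
noncomputable def count (a : ℕ) (b : ℤ) (n : ℕ) : ℕ :=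
  ((Finset.range (n + 1)).filter (fun p => p.Prime ∧ Prime (((a : ℤ) ^ p - b ^ p) / (a - b)))).card

/-- The sequence `w` consists of the digits of the `a`-adic number `-1 / (a - b)`. -/
def IsSpecial (a : ℕ) (b : ℤ) (w : ℕ → Fin a) : Prop :=
  ∀ n : ℕ, (a : ℤ) ^ n ∣ (D a w n : ℤ) * (a - b) + 1

lemma coprime_sub {a b : ℤ} (hab : IsCoprime a b) (n : ℕ) : IsCoprime (a ^ n) (a - b) := by
  apply IsCoprime.pow_left
  have h1 : IsCoprime a (b + a * (-1)) := hab.add_mul_left_right (-1)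
  have h2 : a - b = -(b + a * (-1)) := by ring
  rw [h2]
  exact h1.neg_right

lemma D_eq (a : ℕ) (d : ℕ → Fin a) (p : ℕ) : D a d p = Pool.Agent.W66L.dsum a p d := rfl

/-- existence of the special sequence -/
lemma exists_special {a : ℕ} (ha : 2 ≤ a) {b : ℤ} (hab : IsCoprime (a : ℤ) b) :
    ∃ w : ℕ → Fin a, IsSpecial a b w := by
  have hex : ∀ n : ℕ, ∃ v : ℕ, v < a ^ n ∧ (a : ℤ) ^ n ∣ (v : ℤ) * (a - b) + 1 := by
    intro n
    obtain ⟨s, t, hst⟩ := coprime_sub hab n
    have hpos : (0 : ℤ) < (a : ℤ) ^ n := by positivity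
    refine ⟨((-t) % (a : ℤ) ^ n).toNat, ?_, ?_⟩
    · have h1 := Int.emod_lt_of_pos (-t) hpos
      have h2 := Int.emod_nonneg (-t) hpos.ne'
      zify
      rw [Int.toNat_of_nonneg h2]
      exact h1
    · rw [Int.toNat_of_nonneg (Int.emod_nonneg (-t) hpos.ne')]
      have h1 := Int.emod_add_mul_ediv (-t) ((a : ℤ) ^ n)
      refine ⟨s - (-t) / (a : ℤ) ^ n * (a - b), ?_⟩
      have h2 : (-t) % (a : ℤ) ^ n = -t - (a : ℤ) ^ n * ((-t) / (a : ℤ) ^ n) := by linarith
      rw [h2]
      linear_combination (-1 : ℤ) * hst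
  choose v hv1 hv2 using hex
  have hcompat : ∀ n, v (n + 1) % a ^ n = v n := by
    intro n
    have h1 : (a : ℤ) ^ n ∣ ((v (n + 1) : ℤ) - v n) * (a - b) := by
      have h2 : (a : ℤ) ^ n ∣ (v (n + 1) : ℤ) * (a - b) + 1 :=
        (pow_dvd_pow _ (Nat.le_succ n)).trans (hv2 (n + 1))
      have h3 := dvd_sub h2 (hv2 n)
      have e : (v (n + 1) : ℤ) * (a - b) + 1 - ((v n : ℤ) * (a - b) + 1) =
          ((v (n + 1) : ℤ) - v n) * (a - b) := by ring
      rwa [e] at h3
    have h2 := (coprime_sub hab n).dvd_of_dvd_mul_right h1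
    have h3 : v n ≡ v (n + 1) [MOD a ^ n] := by
      rw [Nat.modEq_iff_dvd]
      push_cast
      exact h2
    have h4 : v n % a ^ n = v (n + 1) % a ^ n := h3
    rw [← h4, Nat.mod_eq_of_lt (hv1 n)]
  have hdig : ∀ i, v (i + 1) / a ^ i < a := by
    intro i
    rw [Nat.div_lt_iff_lt_mul (by positivity)]
    have := hv1 (i + 1)
    rwa [pow_succ, mul_comm] at this
  refine ⟨fun i => ⟨v (i + 1) / a ^ i, hdig i⟩, fun n => ?_⟩
  have hD : ∀ n, D a (fun i => ⟨v (i + 1) / a ^ i, hdig i⟩) n = v n := by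
    intro n
    induction n with
    | zero =>
      have := hv1 0
      unfold D
      simp only [pow_zero] at this
      simp
      omega
    | succ n ih =>
      have h1 : D a (fun i => ⟨v (i + 1) / a ^ i, hdig i⟩) (n + 1) =
          D a (fun i => ⟨v (i + 1) / a ^ i, hdig i⟩) n + v (n + 1) / a ^ n * a ^ n := by
        unfold D
        rw [Finset.sum_range_succ]
      rw [h1, ih, ← hcompat n, mul_comm]
      exact Nat.mod_add_div _ _
  rw [hD n]
  exact hv2 n

/-- uniqueness of the special sequence -/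
lemma unique_special {a : ℕ} (_ha : 2 ≤ a) {b : ℤ} (hab : IsCoprime (a : ℤ) b) {w w' : ℕ → Fin a}
    (h : IsSpecial a b w) (h' : IsSpecial a b w') : w = w' := by
  funext i
  have h1 : D a w (i + 1) = D a w' (i + 1) := by
    have h2 : (a : ℤ) ^ (i + 1) ∣ ((D a w' (i + 1) : ℤ) - D a w (i + 1)) * (a - b) := by
      have h3 := dvd_sub (h' (i + 1)) (h (i + 1))
      have e : (D a w' (i + 1) : ℤ) * (a - b) + 1 - ((D a w (i + 1) : ℤ) * (a - b) + 1) =
          ((D a w' (i + 1) : ℤ) - D a w (i + 1)) * (a - b) := by ring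
      rwa [e] at h3
    have h3 := (coprime_sub hab (i + 1)).dvd_of_dvd_mul_right h2
    have h4 : D a w (i + 1) ≡ D a w' (i + 1) [MOD a ^ (i + 1)] := by
      rw [Nat.modEq_iff_dvd]
      push_cast
      exact h3
    have h5 : D a w (i + 1) % a ^ (i + 1) = D a w' (i + 1) % a ^ (i + 1) := h4
    have h6 : D a w (i + 1) < a ^ (i + 1) := Pool.Agent.W66L.dsum_lt a (i + 1) w
    have h7 : D a w' (i + 1) < a ^ (i + 1) := Pool.Agent.W66L.dsum_lt a (i + 1) w'
    rwa [Nat.mod_eq_of_lt h6, Nat.mod_eq_of_lt h7] at h5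
  exact Pool.Agent.W66L.dsum_inj a (i + 1) w w' h1 i (Nat.lt_succ_self i)

/-- The special values. -/
lemma special {a : ℕ} (ha : 2 ≤ a) {b : ℤ} (hab : IsCoprime (a : ℤ) b) (h1 : -(a : ℤ) < b)
    (h2 : b < a) {w : ℕ → Fin a} (hw : IsSpecial a b w) {p : ℕ} (hp : p.Prime)
    (hpd : ¬ (p : ℤ) ∣ a - b) :
    (roughPart p (R a b w p) : ℤ) * (a - b) = (a : ℤ) ^ p - b ^ p := by
  have ha0 : (0 : ℤ) < a := by omega
  have hpos : (0 : ℤ) < (a : ℤ) ^ p := by positivity
  set M : ℤ := ∑ i ∈ Finset.range p, (a : ℤ) ^ i * b ^ (p - 1 - i) with hM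
  have hgeom : M * ((a : ℤ) - b) = (a : ℤ) ^ p - b ^ p := (Commute.all (a : ℤ) b).geom_sum₂_mul p
  have habs : |b| < (a : ℤ) := abs_lt.2 ⟨h1, h2⟩
  have hbp : |b ^ p| < (a : ℤ) ^ p := by
    rw [abs_pow]
    exact pow_lt_pow_left₀ habs (abs_nonneg b) hp.ne_zero
  have hbp' := abs_lt.1 hbp
  have hd : 0 < (a : ℤ) - b := by omega
  have hMpos : 0 < M := by
    by_contra hc
    push Not at hc
    have : M * ((a : ℤ) - b) ≤ 0 := mul_nonpos_of_nonpos_of_nonneg hc hd.le
    linarith [hbp'.2]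
  have hb0 : b ≠ 0 := by
    rintro rfl
    have h3 := Int.isUnit_iff.1 (isCoprime_zero_right.1 hab)
    omega
  have hMlt : M < (a : ℤ) ^ p := by
    rcases lt_or_gt_of_ne hb0 with hb | hb
    · have h3 : 2 * M ≤ M * ((a : ℤ) - b) := by nlinarith
      linarith [hbp'.1]
    · have h3 : M ≤ M * ((a : ℤ) - b) := by nlinarith
      have h4 : 0 < b ^ p := by positivity
      linarith
  have hcong : (a : ℤ) ^ p ∣ (D a w p : ℤ) * b ^ p - M := by
    have h3 : (a : ℤ) ^ p ∣ ((D a w p : ℤ) * b ^ p - M) * (a - b) := by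
      obtain ⟨k, hk⟩ := hw p
      refine ⟨k * b ^ p - 1, ?_⟩
      linear_combination b ^ p * hk - hgeom
    exact (coprime_sub hab p).dvd_of_dvd_mul_right h3
  have hR : ((R a b w p : ℕ) : ℤ) = M := by
    unfold R
    rw [Int.toNat_of_nonneg (Int.emod_nonneg _ hpos.ne')]
    have h3 : (D a w p : ℤ) * b ^ p % (a : ℤ) ^ p = M % (a : ℤ) ^ p :=
      Int.emod_eq_emod_iff_emod_sub_eq_zero.2 (Int.emod_eq_zero_of_dvd hcong)
    rw [h3, Int.emod_eq_of_lt hMpos.le hMlt]
  have hR0 : R a b w p ≠ 0 := by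
    intro h3
    rw [h3] at hR
    simp at hR
    omega
  have hrough : roughPart p (R a b w p) = R a b w p :=
    Pool.Agent.W66L.rough_quot (a := (a : ℤ)) (b := b) hab hp hpd hR0 hR
  rw [hrough, hR, hgeom]

lemma card_le_of_eventually {s t : ℕ → Prop} [DecidablePred s] [DecidablePred t] (D : ℕ)
    (h : ∀ p, D < p → s p → t p) (n : ℕ) :
    (((Finset.range (n + 1)).filter s).card : ℝ) ≤ (((Finset.range (n + 1)).filter t).card : ℝ) +
      (D + 1 : ℕ) := by
  have h1 : (Finset.range (n + 1)).filter s ⊆ (Finset.range (n + 1)).filter t ∪ Finset.range (D + 1) := by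
    intro p hp
    rw [Finset.mem_filter] at hp
    rw [Finset.mem_union, Finset.mem_filter]
    by_cases hD : D < p
    · exact Or.inl ⟨hp.1, h p hD hp.2⟩
    · exact Or.inr (Finset.mem_range.2 (by omega))
  have h2 := (Finset.card_le_card h1).trans (Finset.card_union_le _ _)
  rw [Finset.card_range] at h2
  exact_mod_cast h2

/-- the two counting functions differ by a bounded amount -/
lemma count_close {a : ℕ} (ha : 2 ≤ a) {b : ℤ} (hab : IsCoprime (a : ℤ) b) (h1 : -(a : ℤ) < b)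
    (h2 : b < a) {w : ℕ → Fin a} (hw : IsSpecial a b w) :
    ∃ D : ℕ, ∀ n : ℕ, (N a b w n : ℝ) ≤ count a b n + D ∧ (count a b n : ℝ) ≤ N a b w n + D := by
  classical
  have key : ∀ p : ℕ, ((a : ℤ) - b).natAbs < p → p.Prime →
      ((roughPart p (R a b w p)).Prime ↔ Prime (((a : ℤ) ^ p - b ^ p) / (a - b))) := by
    intro p hD hp
    have h3 : ¬ (p : ℤ) ∣ (a : ℤ) - b := by
      intro hd
      have h4 := Int.natAbs_dvd_natAbs.2 hd
      rw [Int.natAbs_natCast] at h4
      have h5 := Nat.le_of_dvd (Int.natAbs_pos.2 (by omega)) h4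
      omega
    have h4 := special ha hab h1 h2 hw hp h3
    rw [← h4, Int.mul_ediv_cancel _ (by omega)]
    exact Nat.prime_iff_prime_int
  refine ⟨((a : ℤ) - b).natAbs + 1, fun n => ⟨?_, ?_⟩⟩
  · exact card_le_of_eventually ((a : ℤ) - b).natAbs
      (fun p hD hp => ⟨hp.1, (key p hD hp.1).1 hp.2⟩) n
  · exact card_le_of_eventually ((a : ℤ) - b).natAbs
      (fun p hD hp => ⟨hp.1, (key p hD hp.1).2 hp.2⟩) n

lemma tendsto_transfer {L : ℝ} {F H : ℕ → ℝ} {P : ℝ} (h1 : ∀ n, F n ≤ H n + P) (h2 : ∀ n, H n ≤ F n + P)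
    (h : Tendsto (fun n : ℕ => F n / Real.log n) atTop (𝓝 L)) :
    Tendsto (fun n : ℕ => H n / Real.log n) atTop (𝓝 L) := by
  have hlog : Tendsto (fun n : ℕ => Real.log (n : ℝ)) atTop atTop :=
    Real.tendsto_log_atTop.comp tendsto_natCast_atTop_atTop
  have h3 : Tendsto (fun n : ℕ => P / Real.log n) atTop (𝓝 0) := hlog.const_div_atTop _
  have h4 : Tendsto (fun n : ℕ => H n / Real.log n - F n / Real.log n) atTop (𝓝 0) := by
    refine squeeze_zero_norm' ?_ h3
    filter_upwards [hlog.eventually_gt_atTop 0] with n hn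
    rw [← sub_div, Real.norm_eq_abs, abs_div, abs_of_pos hn]
    refine div_le_div_of_nonneg_right ?_ hn.le
    rw [abs_le]
    constructor <;> linarith [h1 n, h2 n]
  have h5 := h4.add h
  rw [zero_add] at h5
  exact h5.congr fun n => by ring

lemma law (a : ℕ) [NeZero a] (ha : 2 ≤ a) (b : ℤ) (hab : IsCoprime (a : ℤ) b) (h1 : -(a : ℤ) < b)
    (h2 : b < a) :
    ∀ᵐ d : ℕ → Fin a ∂(Measure.infinitePi
        (fun _ : ℕ => ProbabilityTheory.uniformOn (Set.univ : Set (Fin a)))),
      (d 0 : ℕ).Coprime a → Tendsto (fun n : ℕ => (N a b d n : ℝ) / Real.log n) atTop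
        (𝓝 (Real.exp Real.eulerMascheroniConstant / Real.log a)) := by
  have hb0 : b ≠ 0 := by
    rintro rfl
    have h3 := Int.isUnit_iff.1 (isCoprime_zero_right.1 hab)
    omega
  have hba : b.natAbs < a := by omega
  have hb1 : 1 ≤ b.natAbs := by omega
  have h := Pool.Agent.W66L.law_all_tw (a := a) (b := b) ha hab hba hb1 (Pool.Agent.W66L.full_digits a)
  have h' : ∀ᵐ d : ℕ → Fin a ∂(Measure.infinitePi
        (fun _ : ℕ => ProbabilityTheory.uniformOn (Set.univ : Set (Fin a)))),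
      (Pool.Agent.W66L.dsum a 1 d).Coprime a →
      Tendsto (fun n : ℕ => (Pool.Agent.W66L.cntR
        (fun p => Pool.Agent.W66L.TT a b p (Pool.Agent.W66L.dsum a p d)) n : ℝ) /
        Real.log n) atTop
        (𝓝 (Real.exp Real.eulerMascheroniConstant / Real.log (a : ℝ))) := h
  filter_upwards [h'] with d hd hc
  have e1 : Pool.Agent.W66L.dsum a 1 d = (d 0 : ℕ) := by
    unfold Pool.Agent.W66L.dsum
    simp
  rw [e1] at hd
  refine (hd hc).congr fun n => ?_
  have e2 : ∀ p : ℕ, Pool.Agent.W66L.TT a b p (Pool.Agent.W66L.dsum a p d) = R a b d p := by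
    intro p
    have hpos : (0 : ℤ) < (a : ℤ) ^ p := by positivity
    zify
    unfold Pool.Agent.W66L.TT R
    rw [Int.toNat_of_nonneg (Int.emod_nonneg _ hpos.ne')]
    push_cast
    rw [Pool.Agent.W66L.sg_int ha]
    push_cast
    have g1 : b ^ p % (a : ℤ) ^ p * (Pool.Agent.W66L.dsum a p d : ℤ) % (a : ℤ) ^ p =
        b ^ p * (Pool.Agent.W66L.dsum a p d : ℤ) % (a : ℤ) ^ p := by
      rw [Int.mul_emod, Int.emod_emod_of_dvd _ dvd_rfl, ← Int.mul_emod]
    rw [g1, mul_comm]
    rfl
  have h4 : Pool.Agent.W66L.cntR (fun p => Pool.Agent.W66L.TT a b p (Pool.Agent.W66L.dsum a p d)) n =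
      N a b d n := by
    simp only [e2]
    unfold Pool.Agent.W66L.cntR N
    congr 1
    ext p
    simp only [Finset.mem_filter, Finset.mem_Icc, Finset.mem_range]
    constructor
    · rintro ⟨⟨h5, h6⟩, h7, h8⟩
      exact ⟨by omega, h7, h8⟩
    · rintro ⟨h6, h7, h8⟩
      exact ⟨⟨h7.pos, by omega⟩, h7, h8⟩
  rw [h4]

theorem result (a : ℕ) [NeZero a] (ha : 2 ≤ a) :
    -- the digits of `-1 / (a - b)`
    (∀ b : ℤ, IsCoprime (a : ℤ) b → -(a : ℤ) < b → b < a → ∃! w : ℕ → Fin a, IsSpecial a b w) ∧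
    -- the numbers `(a ^ p - b ^ p) / (a - b)` are the values at this sequence, and the asymptotic law
    -- for the counting function of the pair is the law at this sequence
    (∀ b : ℤ, IsCoprime (a : ℤ) b → -(a : ℤ) < b → b < a → ∀ w : ℕ → Fin a, IsSpecial a b w →
      (∀ p : ℕ, p.Prime → ¬ (p : ℤ) ∣ a - b →
        (roughPart p (R a b w p) : ℤ) * (a - b) = (a : ℤ) ^ p - b ^ p) ∧
      ∀ L : ℝ, (Tendsto (fun n : ℕ => (count a b n : ℝ) / Real.log n) atTop (𝓝 L) ↔
        Tendsto (fun n : ℕ => (N a b w n : ℝ) / Real.log n) atTop (𝓝 L))) ∧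
    -- the law for almost every sequence of digits, simultaneously for all `b`
    (∀ᵐ d : ℕ → Fin a ∂(Measure.infinitePi
        (fun _ : ℕ => ProbabilityTheory.uniformOn (Set.univ : Set (Fin a)))),
      (d 0 : ℕ).Coprime a → ∀ b : ℤ, IsCoprime (a : ℤ) b → -(a : ℤ) < b → b < a →
        Tendsto (fun n : ℕ => (N a b d n : ℝ) / Real.log n) atTop
          (𝓝 (Real.exp Real.eulerMascheroniConstant / Real.log a))) := by
  refine ⟨fun b hab h1 h2 => ?_, fun b hab h1 h2 w hw => ⟨fun p hp hpd =>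
    special ha hab h1 h2 hw hp hpd, fun L => ?_⟩, ?_⟩
  · obtain ⟨w, hw⟩ := exists_special ha hab
    exact ⟨w, hw, fun w' hw' => unique_special ha hab hw' hw⟩
  · obtain ⟨D, hD⟩ := count_close ha hab h1 h2 hw
    constructor
    · exact fun h => tendsto_transfer (P := (D : ℝ)) (fun n => (hD n).2) (fun n => (hD n).1) h
    · exact fun h => tendsto_transfer (P := (D : ℝ)) (fun n => (hD n).1) (fun n => (hD n).2) h
  · have h : ∀ b : ℤ, ∀ᵐ d : ℕ → Fin a ∂(Measure.infinitePi
        (fun _ : ℕ => ProbabilityTheory.uniformOn (Set.univ : Set (Fin a)))),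
        IsCoprime (a : ℤ) b → -(a : ℤ) < b → b < a → (d 0 : ℕ).Coprime a →
        Tendsto (fun n : ℕ => (N a b d n : ℝ) / Real.log n) atTop
          (𝓝 (Real.exp Real.eulerMascheroniConstant / Real.log a)) := by
      intro b
      by_cases hc : IsCoprime (a : ℤ) b ∧ -(a : ℤ) < b ∧ b < a
      · filter_upwards [law a ha b hc.1 hc.2.1 hc.2.2] with d hd _ _ _
        exact hd
      · exact Eventually.of_forall fun d h1 h2 h3 => absurd ⟨h1, h2, h3⟩ hc
    filter_upwards [ae_all_iff.2 h] with d hd h0 b hab h1 h2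
    exact hd b hab h1 h2 h0

end Pool.Agent.Results.MP_de9007_nt.LastDigitsLaw
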