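import Mathlib
import Pool.Agent.W66.CK
import Pool.Agent.H447R2.ML.Spec
import Pool.Agent.W66.XG

set_option autoImplicit false

/-!
# The generalized Lenstra-Pomerance-Wagstaff law for almost every real base

For a function `A`, real numbers `c` and `x > max 1 |c|` and a prime `p` let `W A c x p` be the
`p`-rough part (the product, with multiplicity, of the prime factors larger than `p`) of
`⌊A x * (x ^ p - c ^ p)⌋`, and let `N A c x n` be the number of primes `p ≤ n` with `W A c x p`
prime.  For integers `a > 1`, `-a < b < a`, `gcd (a, b) = 1` and `A a = 1 / (a - b)` the number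
`W A b a p` is `(a ^ p - b ^ p) / (a - b)` itself (for `p` prime to `a - b`), and `N A b a n` is, up
to a bounded error, the counting function of the conjecture.  We prove that for every real `c` and
every positive `C ^ 2` function `A` on `(max 1 |c|, ∞)`, for almost every real `x > max 1 |c|` the
limit of `N A c x n / log n` exists and equals `e ^ γ / log x`.
-/

namespace Pool.Agent.Results.MP_de9007_nt.RealBaseLaw

open Filter Topology MeasureTheory

/-- The product, with multiplicity, of the prime factors of `m` that are larger than `p`. -/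
def roughPart (p m : ℕ) : ℕ := (m.primeFactorsList.filter (fun r => p < r)).prod

/-- The `p`-rough part of `⌊A x * (x ^ p - c ^ p)⌋`. -/
noncomputable def W (A : ℝ → ℝ) (c x : ℝ) (p : ℕ) : ℕ := roughPart p ⌊A x * (x ^ p - c ^ p)⌋₊

/-- The number of primes `p ≤ n` for which `W A c x p` is prime. -/
noncomputable def N (A : ℝ → ℝ) (c x : ℝ) (n : ℕ) : ℕ :=
  ((Finset.range (n + 1)).filter (fun p => p.Prime ∧ (W A c x p).Prime)).card

open Classical in
/-- The number of primes `p ≤ n` for which `(a ^ p - b ^ p) / (a - b)` is prime. -/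
noncomputable def count (a b : ℤ) (n : ℕ) : ℕ :=
  ((Finset.range (n + 1)).filter (fun p => p.Prime ∧ Prime ((a ^ p - b ^ p) / (a - b)))).card

/-- The special points. -/
lemma special {A : ℝ → ℝ} {a b : ℤ} (hab : IsCoprime a b) (h1 : -a < b) (h2 : b < a)
    (hA : A a = 1 / ((a : ℝ) - b)) {p : ℕ} (hp : p.Prime)
    (hpd : ¬ (p : ℤ) ∣ a - b) : (W A b a p : ℤ) * (a - b) = a ^ p - b ^ p := by
  have h := Pool.Agent.H447R2.ML.rough_quot hab h1 h2 hp hpd
    (x := A a * ((a : ℝ) ^ p - (b : ℝ) ^ p)) (by rw [hA]; ring)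
  have hgeom : (∑ i ∈ Finset.range p, a ^ i * b ^ (p - 1 - i)) * (a - b) = a ^ p - b ^ p :=
    (Commute.all a b).geom_sum₂_mul p
  rw [← h] at hgeom
  exact hgeom

lemma card_le_of_eventually {s t : ℕ → Prop} [DecidablePred s] [DecidablePred t] (D : ℕ)
    (h : ∀ p, D < p → s p → t p) (n : ℕ) :
    (((Finset.range (n + 1)).filter s).card : ℝ) ≤ (((Finset.range (n + 1)).filter t).card : ℝ) +
      (D + 1 : ℕ) := by
  have h1 : (Finset.range (n + 1)).filter s ⊆ (Finset.range (n + 1)).filter t ∪ Finset.range (D + 1) := by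
    intro p hp
    rw [Finset.mem_filter] at hp
    rw [Finset.mem_union, Finset.mem_filter]
    by_cases hD : D < p
    · exact Or.inl ⟨hp.1, h p hD hp.2⟩
    · exact Or.inr (Finset.mem_range.2 (by omega))
  have h2 := (Finset.card_le_card h1).trans (Finset.card_union_le _ _)
  rw [Finset.card_range] at h2
  exact_mod_cast h2

/-- the two counting functions differ by a bounded amount -/
lemma count_close {A : ℝ → ℝ} {a b : ℤ} (hab : IsCoprime a b) (h1 : -a < b) (h2 : b < a)
    (hA : A a = 1 / ((a : ℝ) - b)) :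
    ∃ D : ℕ, ∀ n : ℕ, (N A b a n : ℝ) ≤ count a b n + D ∧
      (count a b n : ℝ) ≤ N A b a n + D := by
  classical
  have key : ∀ p : ℕ, (a - b).natAbs < p → p.Prime →
      ((W A b a p).Prime ↔ Prime ((a ^ p - b ^ p) / (a - b))) := by
    intro p hD hp
    have h3 : ¬ (p : ℤ) ∣ a - b := by
      intro hd
      have h4 := Int.natAbs_dvd_natAbs.2 hd
      rw [Int.natAbs_natCast] at h4
      have h5 := Nat.le_of_dvd (Int.natAbs_pos.2 (by omega)) h4
      omega
    have h4 := special hab h1 h2 hA hp h3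
    rw [← h4, Int.mul_ediv_cancel _ (by omega)]
    exact Nat.prime_iff_prime_int
  refine ⟨(a - b).natAbs + 1, fun n => ⟨?_, ?_⟩⟩
  · exact card_le_of_eventually (a - b).natAbs (fun p hD hp => ⟨hp.1, (key p hD hp.1).1 hp.2⟩) n
  · exact card_le_of_eventually (a - b).natAbs (fun p hD hp => ⟨hp.1, (key p hD hp.1).2 hp.2⟩) n

theorem result :
    -- with `A a = 1 / (a - b)` the numbers `(a ^ p - b ^ p) / (a - b)` are the values at `x = a`
    (∀ A : ℝ → ℝ, ∀ a b : ℤ, IsCoprime a b → -a < b → b < a → A a = 1 / ((a : ℝ) - b) →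
      ∀ p : ℕ, p.Prime → ¬ (p : ℤ) ∣ a - b → (W A b a p : ℤ) * (a - b) = a ^ p - b ^ p) ∧
    -- the asymptotic law for the counting function of the pair is the law at this point
    (∀ A : ℝ → ℝ, ∀ a b : ℤ, IsCoprime a b → -a < b → b < a → A a = 1 / ((a : ℝ) - b) →
      ∀ L : ℝ, (Tendsto (fun n : ℕ => (count a b n : ℝ) / Real.log n) atTop (𝓝 L) ↔
        Tendsto (fun n : ℕ => (N A b a n : ℝ) / Real.log n) atTop (𝓝 L))) ∧
    -- the law along every curve, for almost every real base
    (∀ c : ℝ, ∀ A : ℝ → ℝ, ContDiffOn ℝ 2 A (Set.Ioi (max 1 |c|)) →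
      (∀ x : ℝ, max 1 |c| < x → 0 < A x) →
      ∀ᵐ x : ℝ, max 1 |c| < x → Tendsto (fun n : ℕ => (N A c x n : ℝ) / Real.log n) atTop
        (𝓝 (Real.exp Real.eulerMascheroniConstant / Real.log x))) := by
  refine ⟨fun A a b hab h1 h2 hA p hp hpd => special hab h1 h2 hA hp hpd,
    fun A a b hab h1 h2 hA L => ?_, fun c A hA hpos => ?_⟩
  · obtain ⟨D, hD⟩ := count_close hab h1 h2 hA
    constructor
    · exact fun h => Pool.Agent.W66X.tendsto_transfer (P := (D : ℝ)) (fun n => (hD n).2)
        (fun n => (hD n).1) h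
    · exact fun h => Pool.Agent.W66X.tendsto_transfer (P := (D : ℝ)) (fun n => (hD n).1)
        (fun n => (hD n).2) h
  · exact Pool.Agent.W66C.law_curve c hA hpos

end Pool.Agent.Results.MP_de9007_nt.RealBaseLaw
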